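import Pool.Agent.H750Z.EGB.Main

set_option autoImplicit false

namespace Pool.Agent.Results.MP_72f11f_al.NoFiniteEGB

open Pool.Agent.H750Z.EGB MvPolynomial

/-- For `f = s² t` the kernel of `φ_f` is finitely generated up to symmetry, and there is an
`Inc(ℕ)`-respecting monomial order for which it has no finite equivariant Groebner basis. -/
theorem result :
    FGUpToSymmetry (RingHom.ker (phi (X 0 ^ 2 * X 1))) ∧
      ∃ m : MonomialOrder.{0, 0} Var, RespectsInc m ∧
        ¬ ∃ G : Set (MvPolynomial Var ℂ), G.Finite ∧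
          IsEGB m (RingHom.ker (phi (X 0 ^ 2 * X 1))) G :=
  ⟨fg, mo, mo_respects, no_egb⟩

end Pool.Agent.Results.MP_72f11f_al.NoFiniteEGB
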